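import Pool.Agent.helper43.TG.Spec

set_option autoImplicit false

/-!
# MP_facb47: row AKS
-/

namespace Pool.Agent.helper43.TG

/-- The number of neighbours with many common neighbours. -/
theorem AKS_bad (V : Type) [Fintype V] [DecidableEq V] (G : SimpleGraph V) [DecidableRel G.Adj]
    (h : ℕ) (Δ f : ℝ) (hf : 0 < f) (hΔ : 0 < Δ) (hh : Δ / Real.sqrt f ≤ (h : ℝ)) (v : V)
    (hs : ∑ u ∈ Finset.univ.filter (fun u => G.Adj v u),
      ((Finset.univ.filter (fun y => G.Adj v y ∧ G.Adj u y)).card : ℝ) ≤ 2 * Δ ^ 2 / f) :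
    ((Finset.univ.filter (fun u => G.Adj v u ∧
      h < (Finset.univ.filter (fun y => G.Adj v y ∧ G.Adj u y)).card)).card : ℝ) ≤
      2 * Δ / Real.sqrt f := by
  have hsq : 0 < Real.sqrt f := Real.sqrt_pos.mpr hf
  have hsf : Real.sqrt f * Real.sqrt f = f := Real.mul_self_sqrt hf.le
  have hpos : 0 < Δ / Real.sqrt f := div_pos hΔ hsq
  set B := Finset.univ.filter (fun u => G.Adj v u ∧
      h < (Finset.univ.filter (fun y => G.Adj v y ∧ G.Adj u y)).card) with hB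
  have h1 : (h : ℝ) * (B.card : ℝ) ≤ ∑ u ∈ Finset.univ.filter (fun u => G.Adj v u),
      ((Finset.univ.filter (fun y => G.Adj v y ∧ G.Adj u y)).card : ℝ) := by
    have hsub : B ⊆ Finset.univ.filter (fun u => G.Adj v u) := by
      intro u hu
      rw [hB, Finset.mem_filter] at hu
      rw [Finset.mem_filter]
      exact ⟨Finset.mem_univ _, hu.2.1⟩
    have h2 : ∑ u ∈ B, (h : ℝ) ≤ ∑ u ∈ B,
        ((Finset.univ.filter (fun y => G.Adj v y ∧ G.Adj u y)).card : ℝ) := by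
      refine Finset.sum_le_sum ?_
      intro u hu
      rw [hB, Finset.mem_filter] at hu
      exact_mod_cast hu.2.2.le
    rw [Finset.sum_const, nsmul_eq_mul, mul_comm] at h2
    exact le_trans h2 (Finset.sum_le_sum_of_subset_of_nonneg hsub
      (fun u _ _ => Nat.cast_nonneg _))
  have h3 : Δ / Real.sqrt f * (B.card : ℝ) ≤ Δ / Real.sqrt f * (2 * Δ / Real.sqrt f) := by
    have h4 : Δ / Real.sqrt f * (2 * Δ / Real.sqrt f) = 2 * Δ ^ 2 / f := by
      rw [div_mul_div_comm, hsf]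
      ring
    rw [h4]
    exact le_trans (mul_le_mul_of_nonneg_right hh (Nat.cast_nonneg _)) (le_trans h1 hs)
  exact le_of_mul_le_mul_left h3 hpos

theorem t_aks (hc : COL) (hn : NUM) : AKS := by
  intro V _ _ G _ k Δ f h1 hfΔ hΔ hdeg hsum hk
  obtain ⟨n1, n2, n3, n4⟩ := hn Δ f k h1 hfΔ hΔ hk
  refine hc V G k ⌈Δ / Real.sqrt f⌉₊ Δ (Δ * f ^ (-(1 / 4) : ℝ)) (2 * Δ / Real.sqrt f) n1 n2 hdeg
    ?_ n4
  intro v
  exact AKS_bad V G _ Δ f (by linarith) hΔ (Nat.le_ceil _) v (hsum v)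

end Pool.Agent.helper43.TG
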