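import Pool.Agent.helper24.TG.S2

set_option linter.all false
set_option autoImplicit false

/-!
# Module tg:HP2 (MP_ce98d8_co): property H2 of the random voltages
-/

namespace Pool.Agent.helper24.TG

open Finset Classical
open Pool.Agent.helper11.Tight (nb eo mem_nb)

/-! ### numbers -/

theorem h14_c_ge (p : Par) : 10 ^ 6 ≤ p.c := by
  have h1 := p.hLog
  have h2 := p.hLam
  nlinarith

theorem h14_c_pos (p : Par) : 0 < p.c := lt_of_lt_of_le (by norm_num) (h14_c_ge p)

theorem h14_q_ge (p : Par) : p.c ^ (p.kT + 12) ≤ p.q :=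
  le_trans (Nat.le_mul_of_pos_left _ p.hLa) p.N4

theorem h14_q_pos (p : Par) : 0 < p.q := lt_of_lt_of_le (pow_pos (h14_c_pos p) _) (h14_q_ge p)

theorem h14_C_pos (p : Par) : 0 < p.C := by
  rcases Nat.eq_zero_or_pos p.C with h | h
  · have h1 := p.hC1
    rw [h] at h1
    have h2 : 0 < p.d := lt_of_lt_of_le (by norm_num) p.hd
    have : 0 < p.c ^ 3 * p.q * p.d :=
      Nat.mul_pos (Nat.mul_pos (pow_pos (h14_c_pos p) _) (h14_q_pos p)) h2
    omega
  · exact h

theorem h14_B_ge (p : Par) : 2 ^ 3799 ≤ p.B - 40 := by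
  have h1 : 2 ^ 19 ≤ p.c := le_trans (by norm_num) (h14_c_ge p)
  have h2 : (2 ^ 19) ^ 200 ≤ p.c ^ 200 := Nat.pow_le_pow_left h1 200
  have h3 := p.N7
  have h4 : (2 : ℕ) ^ 3799 + 40 ≤ (2 ^ 19) ^ 200 := by
    have e1 : ((2 : ℕ) ^ 19) ^ 200 = 2 ^ 3799 + 2 ^ 3799 := by
      rw [← pow_mul, ← two_mul, ← pow_succ']
    have e2 : (40 : ℕ) ≤ 2 ^ 3799 :=
      le_trans (by norm_num : (40 : ℕ) ≤ 2 ^ 6) (Nat.pow_le_pow_right (by norm_num) (by norm_num))
    rw [e1]
    exact Nat.add_le_add_left e2 _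
  exact Nat.le_sub_of_add_le (h4.trans (h2.trans h3))

theorem h14_card_X (p : Par) {P O A : Type} [Fintype P] [DecidableEq P] [Fintype O]
    [DecidableEq O] [Fintype A] [DecidableEq A] [AddCommGroup A] (H : Host P O p.q)
    (hA : Fintype.card A = p.B) : Fintype.card (P × A) ≤ 2 ^ p.Lam := by
  have hq : 1 ≤ p.q := h14_q_pos p
  have hC : 1 ≤ p.C := h14_C_pos p
  rw [Fintype.card_prod, hA, H.card_P]
  refine le_trans ?_ p.s1
  have h1 : p.q ^ 2 + p.q + 1 ≤ 4 * p.q ^ 2 := by nlinarith
  calc (p.q ^ 2 + p.q + 1) * p.B ≤ 4 * p.q ^ 2 * p.B := Nat.mul_le_mul_right _ h1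
    _ = 4 * p.B * p.q ^ 2 * 1 := by ring
    _ ≤ _ := Nat.mul_le_mul_left _ hC

/-! ### the join of two types -/

section jn

variable {P O : Type} [Fintype P] [DecidableEq P] [Fintype O] [DecidableEq O] {q : ℕ}

/-- the line through two types -/
noncomputable def h14_jn (H : Host P O q) (s t : P) : P :=
  if h : s ≠ t then Classical.choose (H.join s t h) else s

theorem h14_jn_spec (H : Host P O q) {s t : P} (h : s ≠ t) :
    H.inc s (h14_jn H s t) ∧ H.inc t (h14_jn H s t) := by
  unfold h14_jn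
  rw [dif_pos h]
  exact Classical.choose_spec (H.join s t h)

theorem h14_jn_eq (H : Host P O q) {s t l : P} (h : s ≠ t) (h1 : H.inc s l) (h2 : H.inc t l) :
    h14_jn H s t = l :=
  H.uniq s t _ l h (h14_jn_spec H h).1 (h14_jn_spec H h).2 h1 h2

end jn

/-! ### probability of a system of collinearities -/

theorem h14_gen (h3 : VS3_stmt) (p : Par) {P O A : Type} [Fintype P] [DecidableEq P] [Fintype O]
    [DecidableEq O] [Fintype A] [DecidableEq A] [AddCommGroup A] (H : Host P O p.q)
    (hA : Fintype.card A = p.B) (h2 : ∀ a : A, a + a = 0) {ι : Type} [DecidableEq ι]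
    (F : Finset ι) (X Y : ι → P × A) (l : ι → P)
    (hne : ∀ e ∈ F, (X e).1 ≠ (Y e).1) (hX : ∀ e ∈ F, H.inc (X e).1 (l e))
    (hY : ∀ e ∈ F, H.inc (Y e).1 (l e)) (hl : ∀ e ∈ F, l e ∉ H.fixL)
    (hinj : ∀ e ∈ F, ∀ e' ∈ F, (Y e).1 = (Y e').1 → l e = l e' → e = e') (m : ℕ)
    (hm : 18 * m ≤ F.card) :
    ((Om A H.TT).filter (fun v => ∀ e ∈ F, col H v (X e) (Y e))).card * (2 ^ 3799) ^ m ≤
      (Om A H.TT).card := by
  have hB := h14_B_ge p
  have hD : 40 < Fintype.card A := by
    rw [hA]
    have h0 : 0 < 2 ^ 3799 := by positivity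
    have := lt_of_lt_of_le h0 hB
    omega
  have key := h3 O A H.TT 40 H.cs hD ι F (fun e => H.orb (Y e).1 (l e))
    (fun e => {H.orb (Y e).1 (l e), H.orb (X e).1 (l e)}) (fun e => (X e).2 + (Y e).2) m
    (fun e he => by simp) (fun e he => (Finset.card_insert_le _ _).trans (by simp)) ?_ hm
  · refine le_trans ?_ key
    refine Nat.mul_le_mul (Finset.card_le_card ?_) (Nat.pow_le_pow_left (by rw [hA]; exact hB) m)
    intro v hv
    simp only [Finset.mem_filter] at hv ⊢
    refine ⟨hv.1, fun e he => ?_⟩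
    have h := (col_iff_eq_two h2 (hne e he) (hX e he) (hY e he)).mp (hv.2 e he)
    have hd : H.orb (Y e).1 (l e) ≠ H.orb (X e).1 (l e) := fun h' =>
      hne e he (H.fixL_spec (l e) (hl e he) _ _ (hX e he) (hY e he) h'.symm)
    rw [Finset.sum_pair hd, add_comm]
    exact h
  · intro o
    refine le_trans (Finset.card_le_card_of_injOn (fun e => ((Y e).1, l e)) ?_ ?_) (H.orb_le o)
    · intro e he
      have he' := Finset.mem_filter.mp he
      simp only [Finset.coe_filter, Finset.mem_univ, true_and, Set.mem_setOf_eq]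
      exact ⟨hY e he'.1, he'.2⟩
    · intro e he e' he' h
      have he := Finset.mem_filter.mp he
      have he' := Finset.mem_filter.mp he'
      simp only [Prod.mk.injEq] at h
      exact hinj e he.1 e' he'.1 h.1 h.2

/-! ### the deterministic part -/

theorem h14_hp2_det (p : Par) {P O A : Type} [Fintype P] [DecidableEq P] [Fintype O]
    [DecidableEq O] [Fintype A] [DecidableEq A] [AddCommGroup A] (H : Host P O p.q) (v : O → A)
    (S : Finset (P × A)) (hS : ∀ L, 128 * p.c * (S ∩ lin H v L).card ≤ S.card)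
    (x : Fin p.c → P × A) (hx : Function.Injective (fun i => (x i).1))
    (hc : ∀ i, S.card ≤ 4 * (Gam H v (x i) ∩ S).card) :
    p.c * S.card ≤ 8 * (((Finset.univ : Finset (Fin p.c)) ×ˢ S).filter
      (fun e : Fin p.c × (P × A) => col H v (x e.1) e.2 ∧
        h14_jn H (x e.1).1 e.2.1 ∉ H.fixL ∧
        ∀ j, j ≠ e.1 → ¬ H.inc (x j).1 (h14_jn H (x e.1).1 e.2.1))).card := by
  have hc6 : 10 ^ 6 ≤ p.c := h14_c_ge p
  have hc0 : 0 < p.c := h14_c_pos p
  -- one value of `i`
  have key : ∀ i : Fin p.c, S.card ≤ 8 * (S.filter (fun y => col H v (x i) y ∧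
      h14_jn H (x i).1 y.1 ∉ H.fixL ∧
      ∀ j, j ≠ i → ¬ H.inc (x j).1 (h14_jn H (x i).1 y.1))).card := by
    intro i
    set G := S.filter (fun y => col H v (x i) y ∧ h14_jn H (x i).1 y.1 ∉ H.fixL ∧
      ∀ j, j ≠ i → ¬ H.inc (x j).1 (h14_jn H (x i).1 y.1)) with hG
    set BL := H.fixL ∪ (Finset.univ : Finset (Fin p.c)).image
      (fun j => h14_jn H (x i).1 (x j).1) with hBL
    have hBLc : BL.card ≤ 3 + p.c := by
      refine (Finset.card_union_le _ _).trans (Nat.add_le_add H.card_fixL ?_)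
      refine Finset.card_image_le.trans ?_
      simp
    have hsub : Gam H v (x i) ∩ S ⊆ G ∪ BL.biUnion (fun l =>
        S ∩ lin H v (l, v (H.orb (x i).1 l) - (x i).2)) := by
      intro y hy
      rw [Finset.mem_inter, mem_Gam] at hy
      rw [Finset.mem_union]
      by_cases hg : h14_jn H (x i).1 y.1 ∉ H.fixL ∧
          ∀ j, j ≠ i → ¬ H.inc (x j).1 (h14_jn H (x i).1 y.1)
      · left
        exact Finset.mem_filter.mpr ⟨hy.2, hy.1, hg⟩
      · right
        have hne : (x i).1 ≠ y.1 := hy.1.1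
        have hj := h14_jn_spec H hne
        rw [Finset.mem_biUnion]
        refine ⟨h14_jn H (x i).1 y.1, ?_, ?_⟩
        · rw [hBL, Finset.mem_union]
          by_cases hf : h14_jn H (x i).1 y.1 ∈ H.fixL
          · exact Or.inl hf
          · right
            have hg' : ¬ ∀ j, j ≠ i → ¬ H.inc (x j).1 (h14_jn H (x i).1 y.1) :=
              fun h => hg ⟨hf, h⟩
            push Not at hg'
            obtain ⟨j, hji, hjl⟩ := hg'
            refine Finset.mem_image.mpr ⟨j, Finset.mem_univ _, ?_⟩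
            refine h14_jn_eq H (fun h => hji (hx h.symm)) hj.1 hjl
        · rw [Finset.mem_inter, mem_lin]
          refine ⟨hy.2, ?_⟩
          have h := (col_iff_eq hne hj.1 hj.2).mp hy.1
          refine ⟨hj.2, ?_⟩
          simp only
          rw [h]
          abel
    have hbad : 128 * p.c * (BL.biUnion (fun l =>
        S ∩ lin H v (l, v (H.orb (x i).1 l) - (x i).2))).card ≤ 2 * p.c * S.card := by
      calc 128 * p.c * (BL.biUnion (fun l =>
            S ∩ lin H v (l, v (H.orb (x i).1 l) - (x i).2))).card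
          ≤ 128 * p.c * ∑ l ∈ BL, (S ∩ lin H v (l, v (H.orb (x i).1 l) - (x i).2)).card :=
            Nat.mul_le_mul_left _ Finset.card_biUnion_le
        _ = ∑ l ∈ BL, 128 * p.c * (S ∩ lin H v (l, v (H.orb (x i).1 l) - (x i).2)).card := by
            rw [Finset.mul_sum]
        _ ≤ ∑ l ∈ BL, S.card := Finset.sum_le_sum fun l _ => hS _
        _ = BL.card * S.card := by simp
        _ ≤ 2 * p.c * S.card := Nat.mul_le_mul_right _ (by omega)
    have hbad2 : 64 * (BL.biUnion (fun l =>
        S ∩ lin H v (l, v (H.orb (x i).1 l) - (x i).2))).card ≤ S.card := by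
      have h2 : 2 * p.c * (64 * (BL.biUnion (fun l =>
          S ∩ lin H v (l, v (H.orb (x i).1 l) - (x i).2))).card) ≤ 2 * p.c * S.card := by
        refine le_trans (le_of_eq ?_) hbad
        ring
      exact Nat.le_of_mul_le_mul_left h2 (by positivity)
    have h1 := (Finset.card_le_card hsub).trans (Finset.card_union_le _ _)
    have h2 := hc i
    omega
  calc p.c * S.card = ∑ i : Fin p.c, S.card := by simp
    _ ≤ ∑ i : Fin p.c, 8 * (S.filter (fun y => col H v (x i) y ∧
      h14_jn H (x i).1 y.1 ∉ H.fixL ∧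
      ∀ j, j ≠ i → ¬ H.inc (x j).1 (h14_jn H (x i).1 y.1))).card :=
        Finset.sum_le_sum fun i _ => key i
    _ = 8 * (((Finset.univ : Finset (Fin p.c)) ×ˢ S).filter
      (fun e : Fin p.c × (P × A) => col H v (x e.1) e.2 ∧
        h14_jn H (x e.1).1 e.2.1 ∉ H.fixL ∧
        ∀ j, j ≠ e.1 → ¬ H.inc (x j).1 (h14_jn H (x e.1).1 e.2.1))).card := by
        rw [← Finset.mul_sum, Finset.card_filter, Finset.sum_product]
        congr 1
        refine Finset.sum_congr rfl fun i _ => ?_
        rw [Finset.card_filter]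

/-! ### HP2 -/

/-- the event for one choice of the points and of the pairs -/
def h14_bad (p : Par) {P O A : Type} [Fintype P] [DecidableEq P] [Fintype O]
    [DecidableEq O] [Fintype A] [DecidableEq A] [AddCommGroup A] (H : Host P O p.q)
    (s : ℕ) (f : (Fin p.c → P × A) × Finset (Fin p.c × (P × A))) (v : O → A) : Prop :=
  (p.c * s ≤ 8 * f.2.card ∧
    (∀ e ∈ f.2, (f.1 e.1).1 ≠ e.2.1 ∧ h14_jn H (f.1 e.1).1 e.2.1 ∉ H.fixL ∧
      ∀ j, j ≠ e.1 → ¬ H.inc (f.1 j).1 (h14_jn H (f.1 e.1).1 e.2.1)) ∧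
    (∀ e ∈ f.2, ∀ e' ∈ f.2, e.1 = e'.1 → e.2.1 = e'.2.1 → e = e')) ∧
  ∀ e ∈ f.2, col H v (f.1 e.1) e.2

theorem h14_bad_card (h3 : VS3_stmt) (p : Par) {P O A : Type} [Fintype P] [DecidableEq P]
    [Fintype O] [DecidableEq O] [Fintype A] [DecidableEq A] [AddCommGroup A] (H : Host P O p.q)
    (hA : Fintype.card A = p.B) (h2 : ∀ a : A, a + a = 0) (s : ℕ) (hs : p.c ≤ s)
    (f : (Fin p.c → P × A) × Finset (Fin p.c × (P × A))) :
    ((Om A H.TT).filter (fun v => h14_bad p H s f v)).card *
      2 ^ ((p.Lam * p.c + p.c * s) + ((p.Lam + 1) * s + 10 * p.Lam)) ≤ (Om A H.TT).card := by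
  have hc6 : 10 ^ 6 ≤ p.c := h14_c_ge p
  have hL := p.hLog
  by_cases hv : p.c * s ≤ 8 * f.2.card ∧
    (∀ e ∈ f.2, (f.1 e.1).1 ≠ e.2.1 ∧ h14_jn H (f.1 e.1).1 e.2.1 ∉ H.fixL ∧
      ∀ j, j ≠ e.1 → ¬ H.inc (f.1 j).1 (h14_jn H (f.1 e.1).1 e.2.1)) ∧
    (∀ e ∈ f.2, ∀ e' ∈ f.2, e.1 = e'.1 → e.2.1 = e'.2.1 → e = e')
  · obtain ⟨hcard, hgood, hinj⟩ := hv
    have key := h14_gen h3 p H hA h2 f.2 (fun e => f.1 e.1) (fun e => e.2)
      (fun e => h14_jn H (f.1 e.1).1 e.2.1) (fun e he => (hgood e he).1)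
      (fun e he => (h14_jn_spec H (hgood e he).1).1) (fun e he => (h14_jn_spec H (hgood e he).1).2)
      (fun e he => (hgood e he).2.1) ?_ (f.2.card / 18) (Nat.mul_div_le _ _)
    · refine le_trans (Nat.mul_le_mul (Finset.card_le_card ?_) ?_) key
      · intro v hv
        simp only [Finset.mem_filter] at hv ⊢
        exact ⟨hv.1, hv.2.2⟩
      · rw [← pow_mul]
        refine Nat.pow_le_pow_right (by norm_num) ?_
        have h18 : f.2.card ≤ 18 * (f.2.card / 18) + 17 := by omega
        set m := f.2.card / 18 with hm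
        have e1 : p.c * s ≤ 144 * m + 136 := by omega
        have e2 : p.Lam ≤ p.c := by omega
        have e3 : p.Lam * p.c ≤ p.c * s := by nlinarith
        have e4 : p.Lam * s ≤ p.c * s := Nat.mul_le_mul_right _ e2
        have e5 : s ≤ p.c * s := Nat.le_mul_of_pos_left _ (by omega)
        have e6 : 10 * p.Lam ≤ p.c * s := by nlinarith
        have e7 : 10 ^ 6 ≤ p.c * s := by nlinarith
        have e8 : (p.Lam * p.c + p.c * s) + ((p.Lam + 1) * s + 10 * p.Lam) ≤ 5 * (p.c * s) := by
          have : (p.Lam + 1) * s = p.Lam * s + s := by ring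
          omega
        omega
    · intro e he e' he' h4 h5
      have g := hgood e he
      have g' := hgood e' he'
      refine hinj e he e' he' ?_ h4
      by_contra hne
      have hi : H.inc (f.1 e.1).1 (h14_jn H (f.1 e'.1).1 e'.2.1) := by
        rw [← h5]
        exact (h14_jn_spec H g.1).1
      exact g'.2.2 e.1 hne hi
  · have : (Om A H.TT).filter (fun v => h14_bad p H s f v) = ∅ := by
      rw [Finset.filter_eq_empty_iff]
      intro v _ hb
      exact hv hb.1
    rw [this]
    simp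

theorem HP2 (h3 : VS3_stmt) : HP2_stmt := by
  intro p P O A _ _ _ _ _ _ _ H hA h2
  have hc6 : 10 ^ 6 ≤ p.c := h14_c_ge p
  have hX := h14_card_X p H hA
  have hq12 : p.c ^ 12 ≤ p.q :=
    le_trans (Nat.pow_le_pow_right (by omega) (by omega)) (h14_q_ge p)
  have hq16 : 16 * p.c ≤ p.q := by
    refine le_trans ?_ hq12
    calc 16 * p.c ≤ p.c * p.c := Nat.mul_le_mul_right _ (by omega)
      _ = p.c ^ 2 := by ring
      _ ≤ p.c ^ 12 := Nat.pow_le_pow_right (by omega) (by norm_num)
  have main := ub_sets (Om A H.TT) p.Lam (10 * p.Lam) hX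
    (fun (S : Finset (P × A)) v => p.q ≤ 16 * S.card ∧
      (∀ L, 128 * p.c * (S ∩ lin H v L).card ≤ S.card) ∧
      p.c ≤ (Finset.univ.filter (fun t : P => ∃ a : A,
        S.card ≤ 4 * (Gam H v (t, a) ∩ S).card)).card) ?_
  · refine le_trans (Nat.mul_le_mul_right _ (Finset.card_le_card ?_)) main
    intro v hv
    simp only [Finset.mem_filter] at hv ⊢
    refine ⟨hv.1, ?_⟩
    have h := hv.2
    unfold H2 at h
    push Not at h
    obtain ⟨S, h1, h4, h5⟩ := h
    refine ⟨S, ?_, h1, h4, h5⟩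
    rw [← Finset.card_pos]
    omega
  · intro S hS
    by_cases hSq : p.q ≤ 16 * S.card
    · have hs : p.c ≤ S.card := by omega
      have hub := ub (Om A H.TT)
        ((Finset.univ : Finset (Fin p.c → P × A)) ×ˢ
          ((Finset.univ : Finset (Fin p.c)) ×ˢ S).powerset)
        (fun f v => h14_bad p H S.card f v) (p.Lam * p.c + p.c * S.card)
        ((p.Lam + 1) * S.card + 10 * p.Lam) ?_ ?_
      · refine le_trans (Nat.mul_le_mul_right _ (Finset.card_le_card ?_)) hub
        intro v hv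
        rw [Finset.mem_filter] at hv ⊢
        obtain ⟨hv0, -, hlin, hty⟩ := hv
        refine ⟨hv0, ?_⟩
        obtain ⟨T, hT, hTc⟩ := Finset.exists_subset_card_eq hty
        have hTa : ∀ t : T, ∃ a : A, S.card ≤ 4 * (Gam H v (t.1, a) ∩ S).card := by
          intro t
          have := hT t.2
          exact (Finset.mem_filter.mp this).2
        choose a ha using hTa
        let E := T.equivFinOfCardEq hTc
        let x : Fin p.c → P × A := fun i => ((E.symm i).1, a (E.symm i))
        have hx : Function.Injective (fun i => (x i).1) := by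
          intro i j hij
          have : (E.symm i).1 = (E.symm j).1 := hij
          exact E.symm.injective (Subtype.ext this)
        have hdet := h14_hp2_det p H v S hlin x hx (fun i => ha (E.symm i))
        set F := ((Finset.univ : Finset (Fin p.c)) ×ˢ S).filter
          (fun e : Fin p.c × (P × A) => col H v (x e.1) e.2 ∧
            h14_jn H (x e.1).1 e.2.1 ∉ H.fixL ∧
            ∀ j, j ≠ e.1 → ¬ H.inc (x j).1 (h14_jn H (x e.1).1 e.2.1)) with hF
        refine ⟨(x, F), ?_, ?_⟩
        · rw [Finset.mem_product, Finset.mem_powerset]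
          exact ⟨Finset.mem_univ _, Finset.filter_subset _ _⟩
        · refine ⟨⟨hdet, ?_, ?_⟩, ?_⟩
          · intro e he
            have he := (Finset.mem_filter.mp he).2
            exact ⟨he.1.1, he.2⟩
          · intro e he e' he' h1 h2'
            have he := (Finset.mem_filter.mp he).2
            have he' := (Finset.mem_filter.mp he').2
            have hc1 : col H v (x e.1) e'.2 := by
              rw [h1]
              exact he'.1
            exact Prod.ext h1 (col_unique he.1 hc1 h2')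
          · intro e he
            exact (Finset.mem_filter.mp he).2.1
      · rw [Finset.card_product, Finset.card_powerset, Finset.card_product, Finset.card_univ,
          Finset.card_univ, Fintype.card_fun, Fintype.card_fin, pow_add]
        refine Nat.mul_le_mul_right _ ?_
        rw [pow_mul]
        exact Nat.pow_le_pow_left hX _
      · intro f _
        exact h14_bad_card h3 p H hA h2 S.card hs f
    · have : (Om A H.TT).filter (fun v => p.q ≤ 16 * S.card ∧
          (∀ L, 128 * p.c * (S ∩ lin H v L).card ≤ S.card) ∧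
          p.c ≤ (Finset.univ.filter (fun t : P => ∃ a : A,
            S.card ≤ 4 * (Gam H v (t, a) ∩ S).card)).card) = ∅ := by
        rw [Finset.filter_eq_empty_iff]
        intro v _ hb
        exact hSq hb.1
      simp only [this]
      simp

end Pool.Agent.helper24.TG
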