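import Pool.Agent.helper43.TG.Spec

set_option autoImplicit false

namespace Pool.Agent.helper43.TG

theorem t_ktb (hc : CEN) (hk : KUP) (hp : PAR) : KTB := by
  intro n t x Y hn ht hx hxy hyy
  have ht1 : (0 : ℝ) < (t : ℝ) + 1 := by positivity
  have ht9 : (9 : ℝ) ≤ t := by exact_mod_cast ht
  have hexp : (0 : ℝ) ≤ 300 * (n : ℝ) / ((t : ℝ) + 1) ^ 2 + 23 := by positivity
  rcases Nat.lt_or_ge Y.card 2 with hY | hY
  · have h1 : (Y.card : ℝ) ≤ 1 := by exact_mod_cast Nat.lt_succ_iff.mp hY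
    exact h1.trans (Real.one_le_rpow (by linarith) hexp)
  · obtain ⟨z, hz1, hz2⟩ := hc n t x Y (by omega) hY hx hxy hyy
    obtain ⟨hodd, h2p, h1p, hineq⟩ := hp n t hn ht (2 * ⌈(150 * (n : ℝ)) / ((t : ℝ) + 1) ^ 2⌉₊ + 21)
      ((2 * ⌈(150 * (n : ℝ)) / ((t : ℝ) + 1) ^ 2⌉₊ + 21 + 3) / 4) rfl rfl
    set k : ℕ := 2 * ⌈(150 * (n : ℝ)) / ((t : ℝ) + 1) ^ 2⌉₊ + 21 with hkdef
    set p : ℕ := (k + 3) / 4 with hpdef
    have hs : (0 : ℝ) ≤ 1 / ((t : ℝ) + 1) := by positivity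
    have hβ : (0 : ℝ) < 4 / ((t : ℝ) + 1) := by positivity
    have hratio : 1 + (1 / ((t : ℝ) + 1)) / (4 / ((t : ℝ) + 1)) = 5 / 4 := by
      field_simp
      norm_num
    have h3 := hk n k p Y z (1 / ((t : ℝ) + 1)) (4 / ((t : ℝ) + 1)) hodd h2p h1p hs hβ hz1 hz2
      (by rw [hratio]; exact hineq)
    have h4 : (1 + 4 / ((t : ℝ) + 1)) / (4 / ((t : ℝ) + 1)) ≤ (t : ℝ) + 1 := by
      rw [div_le_iff₀ hβ]
      have : ((t : ℝ) + 1) * (4 / ((t : ℝ) + 1)) = 4 := by field_simp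
      rw [this]
      have h5 : 4 / ((t : ℝ) + 1) ≤ 1 := by
        rw [div_le_one ht1]
        linarith
      linarith
    have h5 : (0 : ℝ) ≤ (1 + 4 / ((t : ℝ) + 1)) / (4 / ((t : ℝ) + 1)) := by positivity
    have h6 : ((1 + 4 / ((t : ℝ) + 1)) / (4 / ((t : ℝ) + 1))) ^ k ≤ ((t : ℝ) + 1) ^ k :=
      pow_le_pow_left₀ h5 h4 k
    have h7 : (k : ℝ) ≤ 300 * (n : ℝ) / ((t : ℝ) + 1) ^ 2 + 23 := by
      have h8 := Nat.ceil_lt_add_one (show (0 : ℝ) ≤ (150 * (n : ℝ)) / ((t : ℝ) + 1) ^ 2 by positivity)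
      rw [hkdef]
      push_cast
      have h9 : 300 * (n : ℝ) / ((t : ℝ) + 1) ^ 2 = 2 * ((150 * (n : ℝ)) / ((t : ℝ) + 1) ^ 2) := by ring
      rw [h9]
      linarith
    calc (Y.card : ℝ) ≤ ((1 + 4 / ((t : ℝ) + 1)) / (4 / ((t : ℝ) + 1))) ^ k := h3
      _ ≤ ((t : ℝ) + 1) ^ k := h6
      _ = ((t : ℝ) + 1) ^ (k : ℝ) := (Real.rpow_natCast _ _).symm
      _ ≤ ((t : ℝ) + 1) ^ (300 * (n : ℝ) / ((t : ℝ) + 1) ^ 2 + 23) :=
        Real.rpow_le_rpow_of_exponent_le (by linarith) h7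

end Pool.Agent.helper43.TG
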