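import Pool.Agent.helper24.TG.S4

set_option linter.all false
set_option autoImplicit false

/-!
# Module tg:QD3 (MP_ce98d8_co): good copies
-/

namespace Pool.Agent.helper24.TG

open Finset Classical
open Pool.Agent.helper11.Tight (nb eo mem_nb)

theorem QD3_c_ge (p : Par) : 10 ^ 6 ≤ p.c := by
  have h1 := p.hLog
  have h2 := p.hLam
  nlinarith

theorem QD3_q_ge (p : Par) : p.c ^ 12 ≤ p.q :=
  le_trans (Nat.pow_le_pow_right (lt_of_lt_of_le (by norm_num) (QD3_c_ge p)) (by omega))
    (le_trans (Nat.le_mul_of_pos_left _ p.hLa) p.N4)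

theorem QD3 : QD3_stmt := by
  intro p P O A V _ _ _ _ _ _ _ _ _ H v T φ hA hH2 hH3 E0 hE0 hM hP1 hP2 S hSE hF hS8
  have hc6 : 10 ^ 6 ≤ p.c := QD3_c_ge p
  have hc0 : 0 < p.c := by omega
  have hq12 : p.c ^ 12 ≤ p.q := QD3_q_ge p
  have hc4 : 0 < p.c ^ 4 := pow_pos hc0 4
  -- numeric facts
  have hc2q : (10 ^ 6) * (10 ^ 6) * p.c ^ 10 ≤ p.q := by
    refine le_trans ?_ hq12
    calc (10 ^ 6) * (10 ^ 6) * p.c ^ 10 ≤ p.c * p.c * p.c ^ 10 :=
          Nat.mul_le_mul_right _ (Nat.mul_le_mul hc6 hc6)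
      _ = p.c ^ 12 := by ring
  have hc10 : 1 ≤ p.c ^ 10 := Nat.one_le_pow _ _ hc0
  -- the decomposition
  set S2 := S.filter (fun x => ∃ y ∈ S, x.1 = y.1 ∧ x ≠ y) with hS2
  set S1 := S.filter (fun x => ¬ ∃ y ∈ S, x.1 = y.1 ∧ x ≠ y) with hS1
  have hcard : S2.card + S1.card = S.card := Finset.card_filter_add_card_filter_not _
  have hS2S : S2 ⊆ S := Finset.filter_subset _ _
  have hS1S : S1 ⊆ S := Finset.filter_subset _ _
  have hdt : ∀ x ∈ S1, ∀ y ∈ S1, x.1 = y.1 → x = y := by
    intro x hx y hy hxy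
    by_contra hne
    exact (Finset.mem_filter.mp hx).2 ⟨y, hS1S hy, hxy, hne⟩
  set k3 := p.q / (4 * p.c ^ 4 * p.B) with hk3
  have hS2c : S2.card < p.B * k3 := by
    by_contra hlt
    push Not at hlt
    apply hM
    refine ⟨S2, hS2S.trans hSE, ?_, ?_, hlt⟩
    · intro x hx
      obtain ⟨hxS, y, hyS, h1, h2⟩ := Finset.mem_filter.mp hx
      exact ⟨y, Finset.mem_filter.mpr ⟨hyS, x, hxS, h1.symm, h2.symm⟩, h1, h2⟩
    · intro x hx y hy
      exact hF x (hS2S hx) y (hS2S hy)
  have hS2q : 4 * p.c ^ 4 * S2.card ≤ p.q := by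
    calc 4 * p.c ^ 4 * S2.card ≤ 4 * p.c ^ 4 * (p.B * k3) := Nat.mul_le_mul_left _ hS2c.le
      _ = (4 * p.c ^ 4 * p.B) * k3 := by ring
      _ ≤ p.q := Nat.mul_div_le _ _
  have hS2q' : 32 * S2.card ≤ p.q := by
    refine le_trans (Nat.mul_le_mul_right _ ?_) hS2q
    have h1 : p.c ≤ p.c ^ 4 := Nat.le_self_pow (by norm_num) _
    omega
  set a2 := p.q / 32 + 1 with ha2
  have hq1 : 10 ^ 12 ≤ p.q := by
    refine le_trans ?_ hc2q
    calc (10 : ℕ) ^ 12 = (10 ^ 6) * (10 ^ 6) * 1 := by norm_num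
      _ ≤ _ := Nat.mul_le_mul_left _ hc10
  have h2a2 : 2 * a2 ≤ S1.card := by omega
  have ha2q : p.q ≤ 32 * a2 := by omega
  obtain ⟨S', hS'S1, hS'c⟩ := Finset.exists_subset_card_eq h2a2
  have hS'S : S' ⊆ S := hS'S1.trans hS1S
  by_cases hcase : ∀ L, 128 * p.c * (S' ∩ lin H v L).card ≤ S'.card
  · exfalso
    have h2 := hH2 S' (by omega) hcase
    obtain ⟨A1, hA1, hA1c⟩ := Finset.exists_subset_card_eq (show a2 ≤ S'.card by omega)
    have hA2c : (S' \ A1).card = a2 := by
      rw [Finset.card_sdiff_of_subset hA1]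
      omega
    apply hP2
    refine ⟨A1, (hA1.trans hS'S).trans hSE, S' \ A1,
      (Finset.sdiff_subset.trans hS'S).trans hSE, hA1c, hA2c, Finset.disjoint_sdiff, ?_, ?_, ?_⟩
    · intro x hx y hy
      have hx' : x ∈ S' := by
        rcases Finset.mem_union.mp hx with h | h
        · exact hA1 h
        · exact (Finset.mem_sdiff.mp h).1
      have hy' : y ∈ S' := by
        rcases Finset.mem_union.mp hy with h | h
        · exact hA1 h
        · exact (Finset.mem_sdiff.mp h).1
      exact hdt x (hS'S1 hx') y (hS'S1 hy')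
    · refine le_trans ?_ h2.le
      refine Finset.card_le_card_of_injOn (fun y => y.1) ?_ ?_
      · intro y hy
        have hy := Finset.mem_filter.mp hy
        simp only [Finset.coe_filter, Finset.mem_univ, true_and, Set.mem_setOf_eq]
        refine ⟨y.2, ?_⟩
        have e1 := Finset.card_sdiff_add_card_inter A1 (Gam H v y)
        have e2 : (A1 ∩ Gam H v y).card ≤ (Gam H v y ∩ S').card := by
          refine Finset.card_le_card ?_
          intro w hw
          rw [Finset.mem_inter] at hw ⊢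
          exact ⟨hw.2, hA1 hw.1⟩
        have e3 := hy.2
        show S'.card ≤ 4 * (Gam H v y ∩ S').card
        omega
      · intro x hx y hy hxy
        have hx := Finset.mem_filter.mp hx
        have hy := Finset.mem_filter.mp hy
        exact hdt x (hS'S1 (Finset.mem_sdiff.mp hx.1).1) y (hS'S1 (Finset.mem_sdiff.mp hy.1).1) hxy
    · intro x hx y hy hadj
      exact hF x (hS'S (hA1 hx)) y (hS'S (Finset.mem_sdiff.mp hy).1) hadj
  · push Not at hcase
    obtain ⟨L, hL⟩ := hcase
    set a1 := p.q / (8 * p.c ^ 4) with ha1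
    have ha1q : 8 * p.c ^ 4 * a1 ≤ p.q := Nat.mul_div_le _ _
    have ha1q' : p.q < 8 * p.c ^ 4 * (a1 + 1) := Nat.lt_mul_div_succ _ (by positivity)
    have hL' : p.q ≤ 2048 * p.c * (S' ∩ lin H v L).card := by
      have e1 : p.q ≤ 16 * S'.card := by omega
      calc p.q ≤ 16 * S'.card := e1
        _ ≤ 16 * (128 * p.c * (S' ∩ lin H v L).card) := Nat.mul_le_mul_left _ hL.le
        _ = 2048 * p.c * (S' ∩ lin H v L).card := by ring
    have hc4' : 2048 * p.c ≤ 8 * p.c ^ 4 := by
      calc 2048 * p.c ≤ 8 * (p.c * p.c) := by nlinarith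
        _ = 8 * p.c ^ 2 := by ring
        _ ≤ 8 * p.c ^ 4 := Nat.mul_le_mul_left _ (Nat.pow_le_pow_right hc0 (by norm_num))
    have ha1L : a1 ≤ (S' ∩ lin H v L).card := by
      by_contra hlt
      push Not at hlt
      have e1 : 2048 * p.c * ((S' ∩ lin H v L).card + 1) ≤ 8 * p.c ^ 4 * a1 :=
        Nat.mul_le_mul hc4' hlt
      have e2 : 2048 * p.c * ((S' ∩ lin H v L).card + 1) =
          2048 * p.c * (S' ∩ lin H v L).card + 2048 * p.c := by ring
      omega
    have hS1L : (S1 \ lin H v L).card < a1 := by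
      by_contra hge
      push Not at hge
      obtain ⟨A1, hA1, hA1c⟩ := Finset.exists_subset_card_eq ha1L
      obtain ⟨A2, hA2, hA2c⟩ := Finset.exists_subset_card_eq hge
      have hA1S1 : A1 ⊆ S1 := (hA1.trans Finset.inter_subset_left).trans hS'S1
      have hA2S1 : A2 ⊆ S1 := hA2.trans Finset.sdiff_subset
      apply hP1
      refine ⟨A1, (hA1S1.trans hS1S).trans hSE, A2, (hA2S1.trans hS1S).trans hSE, hA1c, hA2c,
        ?_, ?_, ?_, ?_⟩
      · rw [Finset.disjoint_left]
        intro x hx hx'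
        exact (Finset.mem_sdiff.mp (hA2 hx')).2 (Finset.mem_inter.mp (hA1 hx)).2
      · intro x hx y hy
        have hx' : x ∈ S1 := by
          rcases Finset.mem_union.mp hx with h | h
          · exact hA1S1 h
          · exact hA2S1 h
        have hy' : y ∈ S1 := by
          rcases Finset.mem_union.mp hy with h | h
          · exact hA1S1 h
          · exact hA2S1 h
        exact hdt x hx' y hy'
      · have hemp : A2.filter (fun y => 2 * (A1 \ Gam H v y).card < a1) = ∅ := by
          rw [Finset.filter_eq_empty_iff]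
          intro y hy
          push Not
          have hyL : ¬ onL H v L y := by
            have := (Finset.mem_sdiff.mp (hA2 hy)).2
            simpa using this
          have h3 := hH3 L y hyL
          have e1 := Finset.card_sdiff_add_card_inter A1 (Gam H v y)
          have e2 : (A1 ∩ Gam H v y).card ≤ (lin H v L ∩ Gam H v y).card := by
            refine Finset.card_le_card ?_
            intro w hw
            rw [Finset.mem_inter] at hw ⊢
            exact ⟨(Finset.mem_inter.mp (hA1 hw.1)).2, hw.2⟩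
          set g := (lin H v L ∩ Gam H v y).card with hg
          -- 2 g ≤ a1
          have e3 : 2 * g ≤ a1 := by
            by_contra hlt
            push Not at hlt
            have f1 : p.c ^ 6 * g ≤ p.q := h3
            have f2 : a1 + 1 ≤ 2 * g := hlt
            have f3 : 8 * p.c ^ 4 * (a1 + 1) ≤ 16 * p.c ^ 4 * g := by
              calc 8 * p.c ^ 4 * (a1 + 1) ≤ 8 * p.c ^ 4 * (2 * g) := Nat.mul_le_mul_left _ f2
                _ = 16 * p.c ^ 4 * g := by ring
            have f4 : 16 * p.c ^ 4 * g ≤ p.c ^ 6 * g := by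
              refine Nat.mul_le_mul_right _ ?_
              calc 16 * p.c ^ 4 ≤ (p.c * p.c) * p.c ^ 4 :=
                    Nat.mul_le_mul_right _ (by nlinarith)
                _ = p.c ^ 6 := by ring
            omega
          omega
        rw [hemp]
        simp
      · intro x hx y hy hadj
        exact hF x (hS1S (hA1S1 hx)) y (hS1S (hA2S1 hy)) hadj
    refine ⟨L, ?_⟩
    have hsub : S \ lin H v L ⊆ (S1 \ lin H v L) ∪ S2 := by
      intro x hx
      rw [Finset.mem_sdiff] at hx
      rw [Finset.mem_union]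
      by_cases h : ∃ y ∈ S, x.1 = y.1 ∧ x ≠ y
      · right
        exact Finset.mem_filter.mpr ⟨hx.1, h⟩
      · left
        exact Finset.mem_sdiff.mpr ⟨Finset.mem_filter.mpr ⟨hx.1, h⟩, hx.2⟩
    have h1 := (Finset.card_le_card hsub).trans (Finset.card_union_le _ _)
    have h2 : (S \ lin H v L).card ≤ a1 + S2.card := by omega
    have h3 : 8 * (p.c ^ 4 * (S \ lin H v L).card) ≤ 8 * (p.c ^ 4 * (a1 + S2.card)) :=
      Nat.mul_le_mul_left _ (Nat.mul_le_mul_left _ h2)
    have h4 : 8 * (p.c ^ 4 * (a1 + S2.card)) = 8 * p.c ^ 4 * a1 + 2 * (4 * p.c ^ 4 * S2.card) := by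
      ring
    omega

end Pool.Agent.helper24.TG
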